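import Mathlib

open Finset

namespace Pool.Agent.H32R3.LW

variable {ι : Type*} [Fintype ι] [DecidableEq ι]

/-- `t ↦ t / (c - t)` is monotone. -/
lemma ratio_mono {c s t : ℝ} (h0 : 0 ≤ s) (hst : s ≤ t) (htc : t < c) :
    s / (c - s) ≤ t / (c - t) := by
  rw [div_le_div_iff₀ (by linarith) (by linarith)]
  nlinarith

lemma psi_le {c s t : ℝ} (h0 : 0 ≤ s) (hst : s ≤ t) (htc : t < c) :
    s ^ 2 / (c - s) ≤ s * (t / (c - t)) := by
  have h := ratio_mono h0 hst htc
  calc s ^ 2 / (c - s) = s * (s / (c - s)) := by ring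
    _ ≤ _ := mul_le_mul_of_nonneg_left h h0

/-- The key inequality `(★)`. -/
lemma star_ineq {m δ c : ℝ} (hm : m + 4 + δ = 2 * c) (hδ : 0 < δ) (hδc : 2 ≤ δ * c)
    (l : ι → ℝ) (hl : ∀ i, 0 ≤ l i) (hsum : ∑ i, l i = 2 * m) (a : ι) (ha : c < l a)
    (h1 : l a ≤ m + 4) (h2 : ∀ i, i ≠ a → l a + l i ≤ m + 4)
    (h3 : ∀ b, b ≠ a → ∃ w : ℝ, 0 ≤ w ∧ l a + l b ≤ m + 4 - w ∧ ∃ γ : ι → ℝ, (∀ i, 0 ≤ γ i) ∧
      (∀ i, i ≠ a → i ≠ b → l i ≤ 4 + γ i) ∧ ∑ i ∈ (univ.erase a).erase b, γ i ≤ 2 * w) :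
    ∑ i ∈ univ.erase a, l i ^ 2 / (c - l i) ≤
      (2 * c - l a) ^ 2 / (c - (2 * c - l a)) + 2 * (4 + δ) := by
  obtain ⟨d, hd⟩ : ∃ d, d = 2 * c - l a := ⟨_, rfl⟩
  have hdc : d < c := by rw [hd]; linarith
  have hld : ∀ i, i ≠ a → l i ≤ d := fun i hi => by
    have := h2 i hi; rw [hd]; linarith
  have hSum : ∑ i ∈ univ.erase a, l i = 2 * c - 2 * (4 + δ) + d := by
    have := Finset.add_sum_erase univ l (mem_univ a)
    rw [hd]; linarith
  rw [← hd]
  have hd0 : 0 ≤ d := by rw [hd]; linarith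
  have hRHS : 0 ≤ d ^ 2 / (c - d) := by
    apply div_nonneg (sq_nonneg d); linarith
  rcases le_or_gt d (4 + δ) with hdC | hdC
  · -- small d
    calc ∑ i ∈ univ.erase a, l i ^ 2 / (c - l i)
        ≤ ∑ i ∈ univ.erase a, l i * (d / (c - d)) :=
          Finset.sum_le_sum fun i hi => psi_le (hl i) (hld i (ne_of_mem_erase hi)) hdc
      _ = (2 * c - 2 * (4 + δ) + d) * (d / (c - d)) := by rw [← Finset.sum_mul, hSum]
      _ ≤ d ^ 2 / (c - d) + 2 * (4 + δ) := by
          rw [← mul_div_assoc, div_add' _ _ _ (by linarith : c - d ≠ 0),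
            div_le_div_iff_of_pos_right (by linarith)]
          nlinarith
  · have hc4 : 4 < c := by linarith
    rcases (univ.erase a).eq_empty_or_nonempty with hS | hS
    · rw [hS, Finset.sum_empty]; linarith
    obtain ⟨b, hb, hbmax⟩ := Finset.exists_max_image (univ.erase a) l hS
    have hba : b ≠ a := ne_of_mem_erase hb
    rcases le_or_gt (l b) 4 with hb4 | hb4
    · calc ∑ i ∈ univ.erase a, l i ^ 2 / (c - l i)
          ≤ ∑ i ∈ univ.erase a, l i * (4 / (c - 4)) :=
            Finset.sum_le_sum fun i hi => psi_le (hl i) ((hbmax i hi).trans hb4) hc4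
        _ = (2 * c - 2 * (4 + δ) + d) * (4 / (c - 4)) := by rw [← Finset.sum_mul, hSum]
        _ ≤ d ^ 2 / (c - d) + 2 * (4 + δ) := by
            have h5 : 4 / (c - 4) ≤ d / (c - d) := ratio_mono (by norm_num) (by linarith) hdc
            have h6 : d * (4 / (c - 4)) ≤ d ^ 2 / (c - d) := by
              calc d * (4 / (c - 4)) ≤ d * (d / (c - d)) := mul_le_mul_of_nonneg_left h5 hd0
                _ = _ := by ring
            have h7 : (2 * c - 2 * (4 + δ)) * (4 / (c - 4)) ≤ 2 * (4 + δ) := by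
              rw [← mul_div_assoc, div_le_iff₀ (by linarith)]
              nlinarith
            linarith
    · obtain ⟨w, hw0, hw, γ, hγ0, hγ, hγs⟩ := h3 b hba
      obtain ⟨D, hD⟩ : ∃ D, D = l b := ⟨_, rfl⟩
      obtain ⟨z, hz⟩ : ∃ z, z = d - D := ⟨_, rfl⟩
      obtain ⟨A, hA⟩ : ∃ A, A = c - D := ⟨_, rfl⟩
      have hD4 : 4 < D := by rw [hD]; exact hb4
      have hzw : w + δ ≤ z := by rw [hz, hd, hD]; linarith
      have hz0 : 0 < z := by linarith
      have hAz : 0 < A - z := by rw [hA, hz]; linarith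
      have hA0 : 0 < A := by linarith
      have hcAD : c = A + D := by rw [hA]; ring
      have hpt : ∀ i ∈ (univ.erase a).erase b, l i ^ 2 / (c - l i) ≤
          4 / (c - 4) * l i + (c / (c - 4)) * (γ i * (D / A)) := by
        intro i hi
        have hib : i ≠ b := ne_of_mem_erase hi
        have hia : i ≠ a := ne_of_mem_erase (mem_of_mem_erase hi)
        have hlD : l i ≤ D := by rw [hD]; exact hbmax i (mem_of_mem_erase hi)
        have hDc : D < c := by linarith
        have hcl : 0 < c - l i := by linarith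
        have hpos : 0 ≤ (c / (c - 4)) * (γ i * (D / A)) := by
          have : 0 ≤ γ i := hγ0 i
          have h8 : 0 < c - 4 := by linarith
          positivity
        rcases le_or_gt (l i) 4 with h4 | h4
        · have := psi_le (hl i) h4 hc4
          calc l i ^ 2 / (c - l i) ≤ l i * (4 / (c - 4)) := this
            _ ≤ _ := by linarith
        · have h9 : l i ^ 2 / (c - l i) = 4 / (c - 4) * l i +
              (c / (c - 4)) * ((l i - 4) * (l i / (c - l i))) := by
            have h10 : c - 4 ≠ 0 := by linarith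
            field_simp
            ring
          rw [h9]
          have h11 : l i / (c - l i) ≤ D / A := by
            rw [hA]; exact ratio_mono (hl i) hlD hDc
          have h12 : l i - 4 ≤ γ i := by have := hγ i hia hib; linarith
          have h13 : (l i - 4) * (l i / (c - l i)) ≤ γ i * (D / A) :=
            mul_le_mul h12 h11 (div_nonneg (hl i) hcl.le) (hγ0 i)
          have h14 : 0 ≤ c / (c - 4) := div_nonneg (by linarith) (by linarith)
          have := mul_le_mul_of_nonneg_left h13 h14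
          linarith
      have hsum2 : ∑ i ∈ (univ.erase a).erase b, l i = 2 * c - 2 * (4 + δ) + z := by
        have := Finset.add_sum_erase (univ.erase a) l hb
        rw [hz, hD]; linarith
      have hsum3 : ∑ i ∈ (univ.erase a).erase b, l i ^ 2 / (c - l i) ≤
          4 / (c - 4) * (2 * c - 2 * (4 + δ) + z) + (c / (c - 4)) * (2 * w * (D / A)) := by
        refine (Finset.sum_le_sum hpt).trans ?_
        rw [Finset.sum_add_distrib, ← Finset.mul_sum, hsum2, ← Finset.mul_sum, ← Finset.sum_mul]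
        have h14 : 0 ≤ c / (c - 4) := div_nonneg (by linarith) (by linarith)
        have h15 : 0 ≤ D / A := by positivity
        gcongr
      have hsplit := Finset.add_sum_erase (univ.erase a) (fun i => l i ^ 2 / (c - l i)) hb
      rw [← hsplit]
      have hlb : l b ^ 2 / (c - l b) = D ^ 2 / A := by rw [hA, hD]
      have hdd : d ^ 2 / (c - d) = (D + z) ^ 2 / (A - z) := by
        rw [hz, hA]; congr 1 <;> ring
      rw [hdd]
      simp only [hlb]
      -- final inequality
      have hkey : 0 ≤ z * (2 * D + z - 4) + 2 * δ * A - 2 * w * D := by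
        have h16 : (w + δ) * (2 * D + (w + δ) - 4) ≤ z * (2 * D + z - 4) := by
          apply mul_le_mul hzw (by linarith) (by nlinarith) hz0.le
        have h17 : 2 ≤ δ * (A + D) := by rw [← hcAD]; exact hδc
        nlinarith [sq_nonneg (w - (2 - δ))]
      have hfin : 4 / (c - 4) * (2 * c - 2 * (4 + δ) + z) + (c / (c - 4)) * (2 * w * (D / A)) +
          D ^ 2 / A ≤ (D + z) ^ 2 / (A - z) + 2 * (4 + δ) := by
        have h18 : (D + z) ^ 2 / (A - z) + 2 * (4 + δ) - (4 / (c - 4) * (2 * c - 2 * (4 + δ) + z) +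
            (c / (c - 4)) * (2 * w * (D / A)) + D ^ 2 / A) =
            (c / (c - 4)) * ((z * (2 * D + z - 4) + 2 * δ * A - 2 * w * D) / A +
              z * (z * (2 * D + z - 4) + D * (D - 4)) / (A * (A - z))) := by
          have h10 : A + D - 4 ≠ 0 := by linarith
          have h19 : A - z ≠ 0 := hAz.ne'
          have h20 : A ≠ 0 := hA0.ne'
          rw [hcAD]
          field_simp
          ring
        have h21 : 0 ≤ (c / (c - 4)) * ((z * (2 * D + z - 4) + 2 * δ * A - 2 * w * D) / A +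
              z * (z * (2 * D + z - 4) + D * (D - 4)) / (A * (A - z))) := by
          apply mul_nonneg (div_nonneg (by linarith) (by linarith))
          apply add_nonneg (div_nonneg hkey hA0.le)
          apply div_nonneg _ (by positivity)
          apply mul_nonneg hz0.le
          apply add_nonneg
          · apply mul_nonneg hz0.le; linarith
          · apply mul_nonneg <;> linarith
        linarith
      linarith

/-- The quadratic form bound from `(★)`. -/
lemma quad_of_star {m c : ℝ} (hm0 : 0 < m) (l : ι → ℝ) (a : ι) (ha : c < l a)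
    (hla : 0 < l a) (hlc : ∀ i, i ≠ a → l i < c)
    (hstar : m + ∑ i ∈ univ.erase a, l i ^ 2 / (2 * (c - l i)) ≤ l a ^ 2 / (2 * (l a - c)))
    (u : ι → ℝ) :
    2 * ∑ i, l i * u i ^ 2 - (∑ i, l i * u i) ^ 2 / m ≤ 2 * c * ∑ i, u i ^ 2 := by
  obtain ⟨S, hS⟩ : ∃ S, S = ∑ i, l i * u i := ⟨_, rfl⟩
  obtain ⟨θ, hθ⟩ : ∃ θ, θ = 2 * (l a - c) * u a / l a := ⟨_, rfl⟩
  have hS' : l a * u a + ∑ i ∈ univ.erase a, l i * u i = S := by
    rw [hS]; exact Finset.add_sum_erase univ (fun i => l i * u i) (mem_univ a)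
  have e1 : ∑ i, l i * u i ^ 2 = l a * u a ^ 2 + ∑ i ∈ univ.erase a, l i * u i ^ 2 :=
    (Finset.add_sum_erase univ (fun i => l i * u i ^ 2) (mem_univ a)).symm
  have e2 : ∑ i, u i ^ 2 = u a ^ 2 + ∑ i ∈ univ.erase a, u i ^ 2 :=
    (Finset.add_sum_erase univ (fun i => u i ^ 2) (mem_univ a)).symm
  have hpt : ∀ i ∈ univ.erase a, -(2 * θ * (l i * u i)) - θ ^ 2 * (l i ^ 2 / (2 * (c - l i))) ≤
      2 * c * u i ^ 2 - 2 * (l i * u i ^ 2) := by
    intro i hi
    have hc := hlc i (ne_of_mem_erase hi)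
    have hα : 0 < 2 * (c - l i) := by linarith
    have h1 : 0 ≤ (2 * (c - l i) * u i + θ * l i) ^ 2 / (2 * (c - l i)) :=
      div_nonneg (sq_nonneg _) hα.le
    have h2 : (2 * (c - l i) * u i + θ * l i) ^ 2 / (2 * (c - l i)) =
        2 * (c - l i) * u i ^ 2 + 2 * θ * (l i * u i) + θ ^ 2 * (l i ^ 2 / (2 * (c - l i))) := by
      have hne : c - l i ≠ 0 := by
        intro h; linarith
      field_simp
      ring
    rw [h2] at h1
    linarith
  have hs := Finset.sum_le_sum hpt
  rw [Finset.sum_sub_distrib, Finset.sum_sub_distrib, Finset.sum_neg_distrib, ← Finset.mul_sum,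
    ← Finset.mul_sum, ← Finset.mul_sum, ← Finset.mul_sum] at hs
  have hSm : 2 * θ * S - θ ^ 2 * m ≤ S ^ 2 / m := by
    rw [le_div_iff₀ hm0]
    nlinarith [sq_nonneg (S - θ * m)]
  have hR : θ ^ 2 * (m + ∑ i ∈ univ.erase a, l i ^ 2 / (2 * (c - l i))) ≤
      2 * (l a - c) * u a ^ 2 := by
    calc θ ^ 2 * (m + ∑ i ∈ univ.erase a, l i ^ 2 / (2 * (c - l i)))
        ≤ θ ^ 2 * (l a ^ 2 / (2 * (l a - c))) := mul_le_mul_of_nonneg_left hstar (sq_nonneg _)
      _ = 2 * (l a - c) * u a ^ 2 := by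
        rw [hθ]
        have : l a - c ≠ 0 := by linarith
        field_simp
        try ring
  have hθu : 2 * θ * (l a * u a) = 4 * (l a - c) * u a ^ 2 := by
    rw [hθ]
    field_simp
    try ring
  rw [← hS, e1, e2]
  have hθS : 2 * θ * S = 2 * θ * (l a * u a) + 2 * θ * ∑ i ∈ univ.erase a, l i * u i := by
    rw [← hS']; ring
  nlinarith

/-- The commutative bound. -/
theorem comb {m δ c : ℝ} (hm0 : 0 < m) (hm : m + 4 + δ = 2 * c) (hδ : 0 < δ) (hδc : 2 ≤ δ * c)
    (l : ι → ℝ) (hl : ∀ i, 0 ≤ l i) (hsum : ∑ i, l i = 2 * m)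
    (h1 : ∀ i, l i ≤ m + 4) (h2 : ∀ a i, i ≠ a → l a + l i ≤ m + 4)
    (h3 : ∀ a b, b ≠ a → ∃ w : ℝ, 0 ≤ w ∧ l a + l b ≤ m + 4 - w ∧ ∃ γ : ι → ℝ, (∀ i, 0 ≤ γ i) ∧
      (∀ i, i ≠ a → i ≠ b → l i ≤ 4 + γ i) ∧ ∑ i ∈ (univ.erase a).erase b, γ i ≤ 2 * w)
    (u : ι → ℝ) :
    2 * ∑ i, l i * u i ^ 2 - (∑ i, l i * u i) ^ 2 / m ≤ 2 * c * ∑ i, u i ^ 2 := by
  by_cases hall : ∀ i, l i ≤ c
  · have h4 : ∑ i, l i * u i ^ 2 ≤ c * ∑ i, u i ^ 2 := by
      rw [Finset.mul_sum]
      exact Finset.sum_le_sum fun i _ => mul_le_mul_of_nonneg_right (hall i) (sq_nonneg _)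
    have h5 : 0 ≤ (∑ i, l i * u i) ^ 2 / m := by positivity
    linarith
  · push Not at hall
    obtain ⟨a, ha⟩ := hall
    have hst := star_ineq hm hδ hδc l hl hsum a ha (h1 a) (h2 a) (h3 a)
    have hla : 0 < l a := by
      have := hl a
      have hc : 0 < c := by linarith
      linarith
    refine quad_of_star hm0 l a ha hla (fun i hi => ?_) ?_ u
    · have := h2 a i hi; linarith
    · have h6 : ∑ i ∈ univ.erase a, l i ^ 2 / (2 * (c - l i)) =
          (1 / 2) * ∑ i ∈ univ.erase a, l i ^ 2 / (c - l i) := by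
        rw [Finset.mul_sum]
        refine Finset.sum_congr rfl fun i hi => ?_
        have : c - l i ≠ 0 := by
          have := h2 a i (ne_of_mem_erase hi)
          intro h; linarith
        field_simp
      rw [h6]
      have h7 : l a ^ 2 / (2 * (l a - c)) = m + (1 / 2) * ((2 * c - l a) ^ 2 / (c - (2 * c - l a)) +
          2 * (4 + δ)) := by
        have h8 : l a - c ≠ 0 := by linarith
        have h9 : c - (2 * c - l a) = l a - c := by ring
        have h10 : m = 2 * c - 4 - δ := by linarith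
        rw [h9, h10]
        field_simp
        ring
      rw [h7]
      linarith

end Pool.Agent.H32R3.LW
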