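import Mathlib
import Pool.Agent.H32R3.LW.Comb

open Finset

namespace Pool.Agent.H32R3.LW

variable {ι : Type*} [Fintype ι] [DecidableEq ι]

lemma sum_two (f : ι → ℝ) {a b : ι} (hab : b ≠ a) :
    ∑ i, f i = f a + f b + ∑ i ∈ (univ.erase a).erase b, f i := by
  rw [← Finset.add_sum_erase univ f (mem_univ a),
    ← Finset.add_sum_erase (univ.erase a) f (mem_erase.2 ⟨hab, mem_univ b⟩)]
  ring

/-- The degree structure coming from weights `0 ≤ p ≤ 1` on ordered pairs. -/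
lemma degrees {m : ℝ} (p : ι → ι → ℝ) (h0 : ∀ i j, 0 ≤ p i j) (h1 : ∀ i j, p i j ≤ 1)
    (hm : ∑ i, ∑ j, p i j = m) (a b : ι) (hab : b ≠ a) :
    ∃ w : ℝ, 0 ≤ w ∧ (∑ j, (p a j + p j a)) + (∑ j, (p b j + p j b)) ≤ m + 4 - w ∧
      ∃ γ : ι → ℝ, (∀ i, 0 ≤ γ i) ∧
      (∀ i, i ≠ a → i ≠ b → (∑ j, (p i j + p j i)) ≤ 4 + γ i) ∧
      ∑ i ∈ (univ.erase a).erase b, γ i ≤ 2 * w := by
  set R := (univ.erase a).erase b with hR
  refine ⟨∑ i ∈ R, ∑ j ∈ R, p i j, Finset.sum_nonneg fun i _ => Finset.sum_nonneg fun j _ => h0 i j,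
    ?_, fun i => ∑ j ∈ R, (p i j + p j i), fun i => Finset.sum_nonneg fun j _ =>
      add_nonneg (h0 i j) (h0 j i), ?_, ?_⟩
  · have e1 := sum_two (fun j => p a j + p j a) hab
    have e2 := sum_two (fun j => p b j + p j b) hab
    have e3 := sum_two (fun i => ∑ j, p i j) hab
    have e4 := sum_two (fun j => p a j) hab
    have e5 := sum_two (fun j => p b j) hab
    have e6 : ∑ i ∈ R, ∑ j, p i j = ∑ i ∈ R, (p i a + p i b + ∑ j ∈ R, p i j) :=
      Finset.sum_congr rfl fun i _ => sum_two (fun j => p i j) hab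
    rw [Finset.sum_add_distrib, Finset.sum_add_distrib] at e6
    rw [← hR] at e1 e2 e3 e4 e5
    rw [Finset.sum_add_distrib] at e1 e2
    have := h1 a a
    have := h1 a b
    have := h1 b a
    have := h1 b b
    have e7 : ∑ j, (p a j + p j a) = ∑ j, p a j + ∑ j, p j a := Finset.sum_add_distrib
    have e8 : ∑ j, (p b j + p j b) = ∑ j, p b j + ∑ j, p j b := Finset.sum_add_distrib
    have e9 : ∑ x ∈ R, (p a x + p x a) = ∑ j ∈ R, p a j + ∑ j ∈ R, p j a := Finset.sum_add_distrib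
    have e10 : ∑ x ∈ R, (p b x + p x b) = ∑ j ∈ R, p b j + ∑ j ∈ R, p j b := Finset.sum_add_distrib
    linarith
  · intro i hia hib
    have e1 := sum_two (fun j => p i j + p j i) hab
    rw [← hR] at e1
    have := h1 i a
    have := h1 a i
    have := h1 i b
    have := h1 b i
    linarith
  · have : ∑ i ∈ R, ∑ j ∈ R, (p i j + p j i) = 2 * ∑ i ∈ R, ∑ j ∈ R, p i j := by
      simp_rw [Finset.sum_add_distrib]
      rw [Finset.sum_comm (s := R) (t := R) (f := fun i j => p j i)]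
      ring
    exact this.le

lemma degree_le {m : ℝ} (p : ι → ι → ℝ) (h0 : ∀ i j, 0 ≤ p i j) (h1 : ∀ i j, p i j ≤ 1)
    (hm : ∑ i, ∑ j, p i j = m) (a : ι) : ∑ j, (p a j + p j a) ≤ m + 4 := by
  rw [Finset.sum_add_distrib]
  have e1 : ∑ i, ∑ j, p i j = ∑ j, p a j + ∑ i ∈ univ.erase a, ∑ j, p i j :=
    (Finset.add_sum_erase univ (fun i => ∑ j, p i j) (mem_univ a)).symm
  have e2 : ∑ i, p i a = p a a + ∑ i ∈ univ.erase a, p i a :=
    (Finset.add_sum_erase univ (fun i => p i a) (mem_univ a)).symm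
  have e3 : ∑ i ∈ univ.erase a, p i a ≤ ∑ i ∈ univ.erase a, ∑ j, p i j :=
    Finset.sum_le_sum fun i _ => Finset.single_le_sum (f := fun j => p i j)
      (fun j _ => h0 i j) (mem_univ a)
  have := h1 a a
  linarith

/-- The commutative bound for weights. -/
theorem comb_weights {m : ℝ} (hm0 : 0 < m) (p : ι → ι → ℝ) (h0 : ∀ i j, 0 ≤ p i j)
    (h1 : ∀ i j, p i j ≤ 1) (hm : ∑ i, ∑ j, p i j = m) (u : ι → ℝ) :
    2 * ∑ i, (∑ j, (p i j + p j i)) * u i ^ 2 - (∑ i, (∑ j, (p i j + p j i)) * u i) ^ 2 / m ≤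
      (m + 4 + 4 / (m + 4)) * ∑ i, u i ^ 2 := by
  have hδ : 0 < 4 / (m + 4) := by positivity
  have h := comb (δ := 4 / (m + 4)) (c := (m + 4 + 4 / (m + 4)) / 2) hm0 (by ring) hδ
    (by
      have e : 4 / (m + 4) * ((m + 4 + 4 / (m + 4)) / 2) = 2 + 8 / (m + 4) ^ 2 := by
        field_simp
        ring
      rw [e]
      have : 0 ≤ 8 / (m + 4) ^ 2 := by positivity
      linarith)
    (fun i => ∑ j, (p i j + p j i))
    (fun i => Finset.sum_nonneg fun j _ => add_nonneg (h0 i j) (h0 j i))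
    (by
      simp_rw [Finset.sum_add_distrib]
      rw [Finset.sum_comm (f := fun i j => p j i)]
      linarith)
    (degree_le p h0 h1 hm)
    (fun a i hi => by
      obtain ⟨w, hw, h2, _⟩ := degrees p h0 h1 hm a i hi
      linarith)
    (fun a b hb => degrees p h0 h1 hm a b hb) u
  calc _ ≤ _ := h
    _ = _ := by ring

/-- Off-diagonal bound. -/
lemma degree_pair_le {m : ℝ} (p : ι → ι → ℝ) (h0 : ∀ i j, 0 ≤ p i j) (h1 : ∀ i j, p i j ≤ 1)
    (hm : ∑ i, ∑ j, p i j = m) (a b : ι) (hab : b ≠ a) :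
    (∑ j, (p a j + p j a)) + (∑ j, (p b j + p j b)) ≤ m + 4 := by
  obtain ⟨w, hw, h2, _⟩ := degrees p h0 h1 hm a b hab
  linarith

end Pool.Agent.H32R3.LW
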