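import Mathlib
import Pool.Agent.H32R3.LW.Deg

open Matrix Finset

namespace Pool.Agent.H32R3.LW

variable {ι : Type*} [Fintype ι] [DecidableEq ι]

/-- The squared Frobenius norm. -/
noncomputable def fsq (A : Matrix ι ι ℂ) : ℝ := ∑ i, ∑ j, ‖A i j‖ ^ 2

omit [DecidableEq ι] in
lemma fsq_nonneg (A : Matrix ι ι ℂ) : 0 ≤ fsq A :=
  Finset.sum_nonneg fun _ _ => Finset.sum_nonneg fun _ _ => sq_nonneg _

omit [DecidableEq ι] in
lemma trace_mul_conjT (A B : Matrix ι ι ℂ) :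
    (A * Bᴴ).trace = ∑ i, ∑ j, A i j * star (B i j) := by
  simp [Matrix.trace, Matrix.mul_apply, Matrix.conjTranspose_apply]

omit [DecidableEq ι] in
lemma fsq_trace (A : Matrix ι ι ℂ) : (A * Aᴴ).trace = (fsq A : ℂ) := by
  rw [trace_mul_conjT, fsq]
  push_cast
  refine Finset.sum_congr rfl fun i _ => Finset.sum_congr rfl fun j _ => ?_
  exact Complex.mul_conj' (A i j)

omit [DecidableEq ι] in
/-- The basic identity. -/
lemma basic_identity (Z Y : Matrix ι ι ℂ) :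
    ((fsq (Z * Y - Y * Z) + fsq (Zᴴ * Y + Y * Zᴴ) : ℝ) : ℂ) =
      ((Z * Zᴴ + Zᴴ * Z) * (Y * Yᴴ + Yᴴ * Y)).trace := by
  push_cast
  rw [← fsq_trace, ← fsq_trace]
  have e1 : ((Z * Y - Y * Z) * (Z * Y - Y * Z)ᴴ).trace = (Z * (Y * Yᴴ * Zᴴ)).trace
      - (Z * (Y * Zᴴ * Yᴴ)).trace - (Y * Z * Yᴴ * Zᴴ).trace + (Y * (Z * Zᴴ * Yᴴ)).trace := by
    rw [← Matrix.trace_sub, ← Matrix.trace_sub, ← Matrix.trace_add]
    congr 1
    simp only [Matrix.conjTranspose_sub, Matrix.conjTranspose_mul]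
    noncomm_ring
  have e2 : ((Zᴴ * Y + Y * Zᴴ) * (Zᴴ * Y + Y * Zᴴ)ᴴ).trace = (Zᴴ * Y * Yᴴ * Z).trace
      + (Zᴴ * (Y * Z * Yᴴ)).trace + (Y * Zᴴ * Yᴴ * Z).trace + (Y * (Zᴴ * Z * Yᴴ)).trace := by
    rw [← Matrix.trace_add, ← Matrix.trace_add, ← Matrix.trace_add]
    congr 1
    simp only [Matrix.conjTranspose_add, Matrix.conjTranspose_mul, Matrix.conjTranspose_conjTranspose]
    noncomm_ring
  have e3 : ((Z * Zᴴ + Zᴴ * Z) * (Y * Yᴴ + Yᴴ * Y)).trace = (Z * (Zᴴ * Y * Yᴴ)).trace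
      + (Z * Zᴴ * Yᴴ * Y).trace + (Zᴴ * (Z * (Y * Yᴴ))).trace + (Zᴴ * Z * Yᴴ * Y).trace := by
    rw [← Matrix.trace_add, ← Matrix.trace_add, ← Matrix.trace_add]
    congr 1
    noncomm_ring
  have c1 : (Z * (Y * Yᴴ * Zᴴ)).trace = (Zᴴ * (Z * (Y * Yᴴ))).trace := by
    rw [show Z * (Y * Yᴴ * Zᴴ) = (Z * (Y * Yᴴ)) * Zᴴ by noncomm_ring, Matrix.trace_mul_comm]
  have c2 : (Z * (Y * Zᴴ * Yᴴ)).trace = (Y * Zᴴ * Yᴴ * Z).trace := by
    rw [Matrix.trace_mul_comm]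
  have c3 : (Y * Z * Yᴴ * Zᴴ).trace = (Zᴴ * (Y * Z * Yᴴ)).trace := by
    rw [Matrix.trace_mul_comm]
  have c4 : (Y * (Z * Zᴴ * Yᴴ)).trace = (Z * Zᴴ * Yᴴ * Y).trace := by
    rw [Matrix.trace_mul_comm]
  have c5 : (Zᴴ * Y * Yᴴ * Z).trace = (Z * (Zᴴ * Y * Yᴴ)).trace := by
    rw [Matrix.trace_mul_comm]
  have c6 : (Y * (Zᴴ * Z * Yᴴ)).trace = (Zᴴ * Z * Yᴴ * Y).trace := by
    rw [Matrix.trace_mul_comm]
  rw [e1, e2, e3, c1, c2, c3, c4, c5, c6]
  ring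

lemma fsq_comm_le (X Y : Matrix ι ι ℂ) (w : ℂ) :
    fsq (X * Y - Y * X) ≤ (((X - w • (1 : Matrix ι ι ℂ)) * (X - w • (1 : Matrix ι ι ℂ))ᴴ +
      (X - w • (1 : Matrix ι ι ℂ))ᴴ * (X - w • (1 : Matrix ι ι ℂ))) * (Y * Yᴴ + Yᴴ * Y)).trace.re := by
  set Z := X - w • (1 : Matrix ι ι ℂ) with hZ
  have h1 : X * Y - Y * X = Z * Y - Y * Z := by
    rw [hZ]
    simp [Matrix.sub_mul, Matrix.mul_sub]
  rw [h1, ← basic_identity, Complex.ofReal_re]
  have := fsq_nonneg (Zᴴ * Y + Y * Zᴴ)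
  linarith

/-- Bessel's inequality for matrix entries. -/
lemma bessel {k : ℕ} (Y : Fin k → Matrix ι ι ℂ)
    (horth : ∀ a b, (Y a * (Y b)ᴴ).trace = if a = b then 1 else 0) (i j : ι) :
    ∑ a, ‖Y a i j‖ ^ 2 ≤ 1 := by
  let v : Fin k → EuclideanSpace ℂ (ι × ι) := fun a => WithLp.toLp 2 (fun q => Y a q.1 q.2)
  have hin : ∀ a b, inner ℂ (v a) (v b) = (Y b * (Y a)ᴴ).trace := by
    intro a b
    rw [trace_mul_conjT, EuclideanSpace.inner_eq_star_dotProduct]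
    simp only [v, dotProduct, Fintype.sum_prod_type, Pi.star_apply]
  have hv : Orthonormal ℂ v := by
    rw [orthonormal_iff_ite]
    intro a b
    rw [hin, horth]
    by_cases h : a = b
    · simp [h]
    · rw [if_neg h, if_neg (fun h' => h h'.symm)]
  have hb := hv.sum_inner_products_le (EuclideanSpace.single (i, j) (1:ℂ)) (s := Finset.univ)
  have h1 : ‖(EuclideanSpace.single (i, j) (1:ℂ) : EuclideanSpace ℂ (ι × ι))‖ = 1 := by simp
  rw [h1] at hb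
  have h2 : ∀ a, ‖inner ℂ (v a) (EuclideanSpace.single (i, j) (1:ℂ) : EuclideanSpace ℂ (ι × ι))‖
      = ‖Y a i j‖ := by
    intro a
    rw [EuclideanSpace.inner_single_right]
    simp [v]
  simp_rw [h2] at hb
  linarith

lemma final_sum (X : Matrix ι ι ℂ) (d : ι → ℝ) {C : ℝ} (w : ℂ)
    (hpair : ∀ i j, i ≠ j → d i + d j ≤ C)
    (hdiag : 2 * ∑ i, d i * ‖X i i - w‖ ^ 2 ≤ C * ∑ i, ‖X i i‖ ^ 2) :
    ∑ i, ∑ j, (d i + d j) * ‖(X - w • (1 : Matrix ι ι ℂ)) i j‖ ^ 2 ≤ C * fsq X := by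
  have hpt : ∀ i j, (d i + d j) * ‖(X - w • (1 : Matrix ι ι ℂ)) i j‖ ^ 2 ≤ C * ‖X i j‖ ^ 2 +
      (if i = j then 2 * (d i * ‖X i i - w‖ ^ 2) - C * ‖X i i‖ ^ 2 else 0) := by
    intro i j
    by_cases h : i = j
    · subst h
      rw [if_pos rfl]
      simp only [Matrix.sub_apply, Matrix.smul_apply, Matrix.one_apply_eq, smul_eq_mul, mul_one]
      linarith
    · rw [if_neg h, add_zero]
      simp only [Matrix.sub_apply, Matrix.smul_apply, Matrix.one_apply_ne h, smul_eq_mul, mul_zero,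
        sub_zero]
      exact mul_le_mul_of_nonneg_right (hpair i j h) (sq_nonneg _)
  refine (Finset.sum_le_sum fun i _ => Finset.sum_le_sum fun j _ => hpt i j).trans ?_
  simp_rw [Finset.sum_add_distrib]
  have h1 : ∑ i, ∑ j, (if i = j then 2 * (d i * ‖X i i - w‖ ^ 2) - C * ‖X i i‖ ^ 2 else 0) =
      2 * ∑ i, d i * ‖X i i - w‖ ^ 2 - C * ∑ i, ‖X i i‖ ^ 2 := by
    simp only [Finset.sum_ite_eq, Finset.mem_univ, if_true]
    rw [Finset.sum_sub_distrib, Finset.mul_sum, Finset.mul_sum]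
  rw [h1, fsq, Finset.mul_sum]
  simp_rw [← Finset.mul_sum]
  linarith

omit [DecidableEq ι] in
lemma shift_sum {k : ℝ} (hk : 0 < k) (d u : ι → ℝ) (hd : ∑ i, d i = 2 * k) :
    2 * ∑ i, d i * (u i - (∑ j, d j * u j) / (2 * k)) ^ 2 =
      2 * ∑ i, d i * u i ^ 2 - (∑ i, d i * u i) ^ 2 / k := by
  set s := ∑ j, d j * u j with hs
  have h1 : ∑ i, d i * (u i - s / (2 * k)) ^ 2 = ∑ i, d i * u i ^ 2 - 2 * (s / (2 * k)) * s +
      (s / (2 * k)) ^ 2 * (2 * k) := by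
    rw [← hd, hs, Finset.mul_sum, Finset.mul_sum, ← Finset.sum_sub_distrib,
      ← Finset.sum_add_distrib]
    rw [← hs]
    refine Finset.sum_congr rfl fun i _ => ?_
    ring
  rw [h1]
  field_simp
  ring

/-- The case of diagonal `∑ (Y Yᴴ + Yᴴ Y)`. -/
theorem diag_case {k : ℕ} (hk : 0 < k) (Y : Fin k → Matrix ι ι ℂ)
    (horth : ∀ a b, (Y a * (Y b)ᴴ).trace = if a = b then 1 else 0) (d : ι → ℝ)
    (hL : ∑ a, (Y a * (Y a)ᴴ + (Y a)ᴴ * Y a) = Matrix.diagonal (fun i => (d i : ℂ)))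
    (X : Matrix ι ι ℂ) :
    ∑ a, fsq (X * Y a - Y a * X) ≤ ((k : ℝ) + 4 + 4 / ((k : ℝ) + 4)) * fsq X := by
  set C : ℝ := (k : ℝ) + 4 + 4 / ((k : ℝ) + 4) with hC
  have hk0 : (0:ℝ) < k := by exact_mod_cast hk
  set p : ι → ι → ℝ := fun i j => ∑ a, ‖Y a i j‖ ^ 2 with hp
  have hp0 : ∀ i j, 0 ≤ p i j := fun i j => Finset.sum_nonneg fun a _ => sq_nonneg _
  have hp1 : ∀ i j, p i j ≤ 1 := fun i j => bessel Y horth i j
  have hpm : ∑ i, ∑ j, p i j = k := by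
    have h1 : ∀ a, fsq (Y a) = 1 := fun a => by
      have h2 := fsq_trace (Y a)
      rw [horth a a, if_pos rfl] at h2
      exact_mod_cast h2.symm
    calc ∑ i, ∑ j, p i j = ∑ a, fsq (Y a) := by
          simp only [hp, fsq]
          simp_rw [Finset.sum_comm (s := (Finset.univ : Finset ι)) (t := (Finset.univ : Finset (Fin k)))]
      _ = k := by simp [h1]
  have hd : ∀ i, d i = ∑ j, (p i j + p j i) := by
    intro i
    have h1 := congrFun (congrFun hL i) i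
    rw [Matrix.diagonal_apply_eq, Matrix.sum_apply] at h1
    have h2 : ∀ a, (Y a * (Y a)ᴴ + (Y a)ᴴ * Y a) i i =
        ((∑ j, (‖Y a i j‖ ^ 2 + ‖Y a j i‖ ^ 2) : ℝ) : ℂ) := by
      intro a
      rw [Matrix.add_apply, Matrix.mul_apply, Matrix.mul_apply, ← Finset.sum_add_distrib]
      push_cast
      refine Finset.sum_congr rfl fun j _ => ?_
      rw [Matrix.conjTranspose_apply, Matrix.conjTranspose_apply]
      congr 1
      · exact Complex.mul_conj' (Y a i j)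
      · exact Complex.conj_mul' (Y a j i)
    simp_rw [h2] at h1
    have h3 : (∑ a, ∑ j, (‖Y a i j‖ ^ 2 + ‖Y a j i‖ ^ 2) : ℝ) = d i := by exact_mod_cast h1
    rw [← h3, Finset.sum_comm]
    refine Finset.sum_congr rfl fun j _ => ?_
    rw [Finset.sum_add_distrib]
  have hdsum : ∑ i, d i = 2 * (k:ℝ) := by
    simp_rw [hd, Finset.sum_add_distrib]
    rw [Finset.sum_comm (f := fun i j => p j i)]
    linarith
  set wr : ℝ := (∑ j, d j * (X j j).re) / (2 * k) with hwr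
  set wi : ℝ := (∑ j, d j * (X j j).im) / (2 * k) with hwi
  set w : ℂ := ⟨wr, wi⟩ with hw
  have hdiag : 2 * ∑ i, d i * ‖X i i - w‖ ^ 2 ≤ C * ∑ i, ‖X i i‖ ^ 2 := by
    have h1 : ∀ z : ℂ, ‖z‖ ^ 2 = z.re ^ 2 + z.im ^ 2 := fun z => by
      rw [← Complex.normSq_eq_norm_sq, Complex.normSq_apply]; ring
    simp_rw [h1]
    simp only [Complex.sub_re, Complex.sub_im, hw]
    simp_rw [mul_add]
    rw [Finset.sum_add_distrib, Finset.sum_add_distrib, mul_add, mul_add]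
    have e1 := shift_sum hk0 d (fun i => (X i i).re) hdsum
    have e2 := shift_sum hk0 d (fun i => (X i i).im) hdsum
    have c1 := comb_weights hk0 p hp0 hp1 hpm (fun i => (X i i).re)
    have c2 := comb_weights hk0 p hp0 hp1 hpm (fun i => (X i i).im)
    simp_rw [← hd] at c1 c2
    simp only [] at e1 e2
    rw [← hwr] at e1
    rw [← hwi] at e2
    rw [e1, e2]
    exact add_le_add c1 c2
  have hpair : ∀ i j, i ≠ j → d i + d j ≤ C := by
    intro i j hij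
    have h1 := degree_pair_le p hp0 hp1 hpm i j (Ne.symm hij)
    rw [← hd, ← hd] at h1
    have : 0 ≤ 4 / ((k:ℝ) + 4) := by positivity
    linarith
  have hfin := final_sum X d w hpair hdiag
  refine le_trans ?_ hfin
  set Z := X - w • (1 : Matrix ι ι ℂ) with hZ
  calc ∑ a, fsq (X * Y a - Y a * X)
      ≤ ∑ a, ((Z * Zᴴ + Zᴴ * Z) * (Y a * (Y a)ᴴ + (Y a)ᴴ * Y a)).trace.re :=
        Finset.sum_le_sum fun a _ => fsq_comm_le X (Y a) w
    _ = ((Z * Zᴴ + Zᴴ * Z) * Matrix.diagonal (fun i => (d i : ℂ))).trace.re := by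
        rw [← hL, Finset.mul_sum, Matrix.trace_sum, Complex.re_sum]
    _ = ∑ i, ∑ j, (d i + d j) * ‖Z i j‖ ^ 2 := by
        have h4 : ((Z * Zᴴ + Zᴴ * Z) * Matrix.diagonal (fun i => (d i : ℂ))).trace =
            ((∑ i, ∑ j, (d i * ‖Z i j‖ ^ 2 + d i * ‖Z j i‖ ^ 2) : ℝ) : ℂ) := by
          rw [Matrix.trace]
          simp only [Matrix.diag_apply, Matrix.mul_diagonal]
          simp only [Matrix.add_apply, Matrix.mul_apply]
          push_cast
          refine Finset.sum_congr rfl fun i _ => ?_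
          rw [← Finset.sum_add_distrib, Finset.sum_mul]
          refine Finset.sum_congr rfl fun j _ => ?_
          rw [Matrix.conjTranspose_apply, Matrix.conjTranspose_apply]
          have h5 : Z i j * star (Z i j) = (‖Z i j‖:ℂ) ^ 2 := Complex.mul_conj' (Z i j)
          have h6 : star (Z j i) * Z j i = (‖Z j i‖:ℂ) ^ 2 := Complex.conj_mul' (Z j i)
          rw [h5, h6]
          ring
        rw [h4, Complex.ofReal_re]
        simp_rw [Finset.sum_add_distrib]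
        rw [Finset.sum_comm (f := fun i j => d i * ‖Z j i‖ ^ 2), ← Finset.sum_add_distrib]
        refine Finset.sum_congr rfl fun i _ => ?_
        rw [← Finset.sum_add_distrib]
        refine Finset.sum_congr rfl fun j _ => ?_
        ring

end Pool.Agent.H32R3.LW
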