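import Mathlib
import Pool.Agent.H32R3.LW.Mat

open Matrix Finset

namespace Pool.Agent.H32R3.LW

variable {ι : Type*} [Fintype ι] [DecidableEq ι]

lemma fsq_conj (U A : Matrix ι ι ℂ) (hU : U * Uᴴ = 1) : fsq (Uᴴ * A * U) = fsq A := by
  have h1 : ((fsq (Uᴴ * A * U) : ℝ) : ℂ) = ((fsq A : ℝ) : ℂ) := by
    rw [← fsq_trace, ← fsq_trace]
    have : (Uᴴ * A * U) * (Uᴴ * A * U)ᴴ = Uᴴ * (A * (U * Uᴴ) * Aᴴ * U) := by
      simp only [Matrix.conjTranspose_mul, Matrix.conjTranspose_conjTranspose]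
      noncomm_ring
    rw [this, hU, Matrix.mul_one, Matrix.trace_mul_comm]
    have h2 : A * Aᴴ * U * Uᴴ = A * Aᴴ * (U * Uᴴ) := by noncomm_ring
    rw [h2, hU, Matrix.mul_one]
  exact_mod_cast h1

/-- The main bound: orthonormal families of matrices. -/
theorem main_bound {k : ℕ} (Y : Fin k → Matrix ι ι ℂ)
    (horth : ∀ a b, (Y a * (Y b)ᴴ).trace = if a = b then 1 else 0) (X : Matrix ι ι ℂ) :
    ∑ a, fsq (X * Y a - Y a * X) ≤ ((k : ℝ) + 4 + 4 / ((k : ℝ) + 4)) * fsq X := by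
  rcases Nat.eq_zero_or_pos k with hk | hk
  · subst hk
    simp only [Finset.univ_eq_empty, Finset.sum_empty]
    have := fsq_nonneg X
    positivity
  set L : Matrix ι ι ℂ := ∑ a, (Y a * (Y a)ᴴ + (Y a)ᴴ * Y a) with hLdef
  have hL : L.IsHermitian := by
    rw [Matrix.IsHermitian, hLdef, Matrix.conjTranspose_sum]
    refine Finset.sum_congr rfl fun a _ => ?_
    simp [Matrix.conjTranspose_add, Matrix.conjTranspose_mul]
  set U : Matrix ι ι ℂ := (hL.eigenvectorUnitary : Matrix ι ι ℂ) with hUdef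
  have hU1 : U * Uᴴ = 1 := Unitary.coe_mul_star_self hL.eigenvectorUnitary
  have hdiag : Uᴴ * L * U = Matrix.diagonal (fun i => (hL.eigenvalues i : ℂ)) := by
    have := hL.conjStarAlgAut_star_eigenvectorUnitary
    rw [Unitary.conjStarAlgAut_star_apply] at this
    exact this
  have hprod : ∀ A B : Matrix ι ι ℂ, (Uᴴ * A * U) * (Uᴴ * B * U) = Uᴴ * (A * B) * U := by
    intro A B
    have : (Uᴴ * A * U) * (Uᴴ * B * U) = Uᴴ * (A * (U * Uᴴ) * B) * U := by noncomm_ring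
    rw [this, hU1, Matrix.mul_one]
  have hstar : ∀ A : Matrix ι ι ℂ, (Uᴴ * A * U)ᴴ = Uᴴ * Aᴴ * U := by
    intro A
    simp only [Matrix.conjTranspose_mul, Matrix.conjTranspose_conjTranspose]
    noncomm_ring
  have htr : ∀ A : Matrix ι ι ℂ, (Uᴴ * A * U).trace = A.trace := by
    intro A
    rw [Matrix.mul_assoc, Matrix.trace_mul_comm, Matrix.mul_assoc, hU1, Matrix.mul_one]
  have h := diag_case hk (fun a => Uᴴ * Y a * U)
    (fun a b => by rw [hstar, hprod, htr, horth]) hL.eigenvalues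
    (by
      rw [← hdiag, hLdef, Finset.mul_sum, Finset.sum_mul]
      refine Finset.sum_congr rfl fun a _ => ?_
      rw [hstar, hprod, hprod]
      noncomm_ring) (Uᴴ * X * U)
  have hf : ∀ a, fsq (Uᴴ * X * U * (Uᴴ * Y a * U) - Uᴴ * Y a * U * (Uᴴ * X * U)) =
      fsq (X * Y a - Y a * X) := by
    intro a
    rw [hprod, hprod, ← Matrix.sub_mul, ← Matrix.mul_sub, fsq_conj U _ hU1]
  simp_rw [hf] at h
  rwa [fsq_conj U _ hU1] at h

end Pool.Agent.H32R3.LW
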