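import Mathlib
import Pool.Agent.H32R3.LW.Fin

open Matrix Finset

namespace Pool.Agent.H32R3.LW

variable {K : Type} [RCLike K] {n : ℕ}

/-- The embedding of a real or complex field into the complex numbers. -/
noncomputable def toC : K →+* ℂ where
  toFun x := ⟨RCLike.re x, RCLike.im x⟩
  map_one' := by
    apply Complex.ext <;> simp
  map_zero' := by
    apply Complex.ext <;> simp
  map_add' x y := by
    apply Complex.ext <;> simp
  map_mul' x y := by
    apply Complex.ext <;> simp [RCLike.mul_re, RCLike.mul_im]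

lemma toC_star (x : K) : toC (star x) = star (toC x) := by
  apply Complex.ext <;> simp [toC]

lemma toC_norm (x : K) : ‖toC x‖ ^ 2 = ‖x‖ ^ 2 := by
  rw [← Complex.normSq_eq_norm_sq, ← RCLike.normSq_eq_def', Complex.normSq_apply,
    RCLike.normSq_apply]
  simp [toC]

/-- The matrix of the operator `Y ↦ [X*, [X, Y]]` in the standard basis. -/
def opMatrix (X : Matrix (Fin n) (Fin n) K) : Matrix (Fin n × Fin n) (Fin n × Fin n) K :=
  Matrix.of (fun p q : Fin n × Fin n =>
        (Xᴴ * (X * Matrix.single q.1 q.2 (1:K) - Matrix.single q.1 q.2 (1:K) * X)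
          - (X * Matrix.single q.1 q.2 (1:K) - Matrix.single q.1 q.2 (1:K) * X) * Xᴴ)
            p.1 p.2)

lemma key_trace (X A B : Matrix (Fin n) (Fin n) K) :
    (Aᴴ * (Xᴴ * (X * B - B * X) - (X * B - B * X) * Xᴴ)).trace =
      ((X * A - A * X)ᴴ * (X * B - B * X)).trace := by
  generalize X * B - B * X = Z
  have h1 : (Aᴴ * (Z * Xᴴ)).trace = (Xᴴ * (Aᴴ * Z)).trace := by
    rw [← Matrix.mul_assoc, Matrix.trace_mul_comm]
  have h2 : (Aᴴ * (Xᴴ * Z - Z * Xᴴ)).trace = (Aᴴ * (Xᴴ * Z)).trace - (Aᴴ * (Z * Xᴴ)).trace := by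
    rw [Matrix.mul_sub, Matrix.trace_sub]
  rw [h2, h1, ← Matrix.trace_sub]
  congr 1
  simp only [Matrix.conjTranspose_sub, Matrix.conjTranspose_mul]
  noncomm_ring

lemma single_trace (p : Fin n × Fin n) (Z : Matrix (Fin n) (Fin n) K) :
    ((Matrix.single p.1 p.2 (1:K))ᴴ * Z).trace = Z p.1 p.2 := by
  rw [Matrix.conjTranspose_single, star_one]
  simp [Matrix.trace, Matrix.mul_apply, Matrix.single_apply, ite_and]

lemma opMatrix_apply (X : Matrix (Fin n) (Fin n) K) (p q : Fin n × Fin n) :
    opMatrix X p q = ((X * Matrix.single p.1 p.2 (1:K) - Matrix.single p.1 p.2 (1:K) * X)ᴴ *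
      (X * Matrix.single q.1 q.2 (1:K) - Matrix.single q.1 q.2 (1:K) * X)).trace := by
  rw [← key_trace, single_trace]
  rfl

lemma opMatrix_isHermitian (X : Matrix (Fin n) (Fin n) K) : (opMatrix X).IsHermitian := by
  ext p q
  rw [Matrix.conjTranspose_apply, opMatrix_apply, opMatrix_apply, ← Matrix.trace_conjTranspose,
    Matrix.conjTranspose_mul, Matrix.conjTranspose_conjTranspose]

/-- The matrix whose entries are the coordinates of a vector. -/
def toMat (v : Fin n × Fin n → K) : Matrix (Fin n) (Fin n) K := Matrix.of fun i j => v (i, j)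

lemma toMat_eq_sum (v : Fin n × Fin n → K) :
    toMat v = ∑ q : Fin n × Fin n, v q • Matrix.single q.1 q.2 (1:K) := by
  ext i j
  rw [Matrix.sum_apply, Finset.sum_eq_single (i, j)]
  · simp [toMat]
  · rintro ⟨a, b⟩ _ hne
    simp only [Matrix.smul_apply, Matrix.single_apply, smul_eq_mul]
    rw [if_neg, mul_zero]
    rintro ⟨rfl, rfl⟩
    exact hne rfl
  · intro h; exact absurd (Finset.mem_univ _) h

lemma opMatrix_mulVec (X : Matrix (Fin n) (Fin n) K) (v : Fin n × Fin n → K) :
    toMat ((opMatrix X) *ᵥ v) =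
      Xᴴ * (X * toMat v - toMat v * X) - (X * toMat v - toMat v * X) * Xᴴ := by
  ext i j
  have h : Xᴴ * (X * toMat v - toMat v * X) - (X * toMat v - toMat v * X) * Xᴴ =
      ∑ q : Fin n × Fin n, v q • (Xᴴ * (X * Matrix.single q.1 q.2 (1:K) -
        Matrix.single q.1 q.2 (1:K) * X) - (X * Matrix.single q.1 q.2 (1:K) -
        Matrix.single q.1 q.2 (1:K) * X) * Xᴴ) := by
    rw [toMat_eq_sum]
    simp only [Finset.mul_sum, Finset.sum_mul, Matrix.mul_smul, Matrix.smul_mul,
      ← Finset.sum_sub_distrib]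
    refine Finset.sum_congr rfl fun q _ => ?_
    rw [← smul_sub, Matrix.mul_smul, Matrix.smul_mul, ← smul_sub]
  rw [h, Matrix.sum_apply]
  simp only [toMat, Matrix.of_apply, Matrix.mulVec, dotProduct, Matrix.smul_apply, smul_eq_mul,
    opMatrix]
  exact Finset.sum_congr rfl fun q _ => mul_comm _ _

lemma toMat_trace (v w : Fin n × Fin n → K) :
    ((toMat v)ᴴ * toMat w).trace = ∑ q : Fin n × Fin n, star (v q) * w q := by
  rw [Fintype.sum_prod_type, Finset.sum_comm]
  simp [Matrix.trace, Matrix.mul_apply, Matrix.conjTranspose_apply, toMat]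

lemma toC_map_mul (A B : Matrix (Fin n) (Fin n) K) :
    (A * B).map toC = A.map toC * B.map toC := by
  rw [Matrix.map_mul]

/-- The main theorem, in eigenvalue form. -/
theorem eigenvalue_sum (X : Matrix (Fin n) (Fin n) K) (hM : (opMatrix X).IsHermitian)
    (S : Finset (Fin n × Fin n)) :
    ∑ p ∈ S, hM.eigenvalues p ≤
      ((S.card : ℝ) + 4 + 4 / ((S.card : ℝ) + 4)) * ∑ i, ∑ j, ‖X i j‖ ^ 2 := by
  classical
  set Y : Fin n × Fin n → Matrix (Fin n) (Fin n) K :=
    fun p => toMat (fun q => (hM.eigenvectorBasis p) q) with hY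
  -- orthonormality
  have horth : ∀ p p', ((Y p)ᴴ * Y p').trace = if p = p' then 1 else 0 := by
    intro p p'
    rw [hY, toMat_trace]
    have h := orthonormal_iff_ite.mp hM.eigenvectorBasis.orthonormal p p'
    rw [← h, EuclideanSpace.inner_eq_star_dotProduct, dotProduct_comm]
    rfl
  -- eigenvalues
  have heig : ∀ p, (hM.eigenvalues p : K) =
      ((X * Y p - Y p * X)ᴴ * (X * Y p - Y p * X)).trace := by
    intro p
    rw [← key_trace]
    have h1 := opMatrix_mulVec X (fun q => (hM.eigenvectorBasis p) q)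
    have h2 : (opMatrix X) *ᵥ (fun q => (hM.eigenvectorBasis p) q) =
        (hM.eigenvalues p) • (fun q => (hM.eigenvectorBasis p) q) := hM.mulVec_eigenvectorBasis p
    rw [h2] at h1
    rw [hY]
    simp only
    rw [← h1]
    have h3 : toMat ((hM.eigenvalues p) • (fun q => (hM.eigenvectorBasis p) q)) =
        (hM.eigenvalues p : K) • Y p := by
      ext i j
      simp [toMat, hY, RCLike.real_smul_eq_coe_mul]
    rw [h3, Matrix.mul_smul, Matrix.trace_smul]
    have h4 := horth p p
    rw [if_pos rfl] at h4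
    rw [hY] at h4
    simp only at h4
    rw [hY]
    simp only
    rw [h4]
    simp
  -- transfer to the complex numbers
  have hstarC : ∀ A : Matrix (Fin n) (Fin n) K, (A.map toC)ᴴ = (Aᴴ).map toC := by
    intro A
    ext i j
    simp [Matrix.conjTranspose_apply, Matrix.map_apply, ← toC_star]
  have htrC : ∀ A : Matrix (Fin n) (Fin n) K, (A.map toC).trace = toC A.trace := by
    intro A
    simp [Matrix.trace, Matrix.map_apply, map_sum]
  have hfX : fsq (X.map toC) = ∑ i, ∑ j, ‖X i j‖ ^ 2 := by
    simp [fsq, toC_norm]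
  have hval : ∀ p, hM.eigenvalues p =
      fsq (X.map toC * (Y p).map toC - (Y p).map toC * X.map toC) := by
    intro p
    have h1 := congrArg toC (heig p)
    rw [← htrC, Matrix.map_mul, ← hstarC, Matrix.trace_mul_comm] at h1
    have h2 : (X * Y p - Y p * X).map (toC : K →+* ℂ) =
        X.map toC * (Y p).map toC - (Y p).map toC * X.map toC := by
      rw [← Matrix.map_mul, ← Matrix.map_mul]
      ext i j
      rw [Matrix.sub_apply, Matrix.map_apply, Matrix.map_apply, Matrix.map_apply,
        Matrix.sub_apply, map_sub]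
    rw [h2, fsq_trace] at h1
    have h3 : toC (hM.eigenvalues p : K) = ((hM.eigenvalues p : ℝ) : ℂ) := by
      apply Complex.ext <;> simp [toC]
    rw [h3] at h1
    exact_mod_cast h1
  have hmain := main_bound (ι := Fin n) (k := S.card)
    (fun a => ((Y (S.equivFin.symm a)).map toC))
    (by
      intro a b
      rw [hstarC, ← Matrix.map_mul, htrC, Matrix.trace_mul_comm, horth]
      by_cases hab : a = b
      · subst hab; simp
      · rw [if_neg, if_neg hab, map_zero]
        intro h
        exact hab (S.equivFin.symm.injective (Subtype.ext h.symm))) (X.map toC)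
  rw [← hfX]
  refine le_trans (le_of_eq ?_) hmain
  rw [← Finset.sum_coe_sort S, ← Equiv.sum_comp S.equivFin.symm]
  exact Finset.sum_congr rfl fun a _ => hval _

end Pool.Agent.H32R3.LW
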